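import Mathlib
import Pool.Agent.H270R2.GEN.Defs
import Pool.Agent.Helper467.FP.P_n2_mul_le

/-! ROOM GEN, BLOCK 2: task AVP, elementary properties of the averages. -/

set_option autoImplicit false

open scoped ComplexOrder Topology BoundedContinuousFunction
open Filter

noncomputable section

namespace Pool.Agent.H270G.T_AVP

open Pool.Agent.H467F Pool.Agent.H735G Pool.Agent.H270G

variable {A : Type} [CStarAlgebra A] {τ : A →ₗ[ℂ] ℂ}

/-- one averaging step -/
def ph (s t x : A) : A := (4⁻¹ : ℂ) • (x + s * x * s + t * x * t + (s * t) * x * (t * s))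

lemma av_zero (s t : ℕ → A) (x : A) : av s t 0 x = x := rfl

lemma av_succ (s t : ℕ → A) (k : ℕ) (x : A) :
    av s t (k + 1) x = ph (s k) (t k) (av s t k x) := rfl

lemma ph_add (s t x y : A) : ph s t (x + y) = ph s t x + ph s t y := by
  unfold ph
  rw [← smul_add]
  congr 1
  noncomm_ring

lemma ph_smul (s t : A) (c : ℂ) (x : A) : ph s t (c • x) = c • ph s t x := by
  unfold ph
  rw [smul_comm c]
  congr 1
  simp only [mul_smul_comm, smul_mul_assoc, smul_add]

lemma ph_neg (s t x : A) : ph s t (-x) = -ph s t x := by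
  have := ph_smul s t (-1) x
  rwa [neg_one_smul, neg_one_smul] at this

lemma ph_sub (s t x y : A) : ph s t (x - y) = ph s t x - ph s t y := by
  rw [sub_eq_add_neg, ph_add, ph_neg, ← sub_eq_add_neg]

lemma norm_one_le : ‖(1 : A)‖ ≤ 1 := by
  have h := CStarRing.norm_star_mul_self (x := (1 : A))
  rw [star_one, one_mul] at h
  by_contra hc
  push Not at hc
  nlinarith

lemma norm_sym_le {s : A} (hs : star s = s) (h1 : s * s = 1) : ‖s‖ ≤ 1 := by
  have h := CStarRing.norm_star_mul_self (x := s)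
  rw [hs, h1] at h
  have h2 := norm_one_le (A := A)
  by_contra hc
  push Not at hc
  nlinarith

lemma norm_mul_mul_le {a b x : A} (ha : ‖a‖ ≤ 1) (hb : ‖b‖ ≤ 1) : ‖a * x * b‖ ≤ ‖x‖ := by
  calc ‖a * x * b‖ ≤ ‖a * x‖ * ‖b‖ := norm_mul_le _ _
    _ ≤ (‖a‖ * ‖x‖) * ‖b‖ := mul_le_mul_of_nonneg_right (norm_mul_le _ _) (norm_nonneg _)
    _ ≤ (1 * ‖x‖) * 1 := by
        apply mul_le_mul _ hb (norm_nonneg _) (by positivity)
        exact mul_le_mul_of_nonneg_right ha (norm_nonneg _)
    _ = ‖x‖ := by ring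

lemma n2_mul_mul_le (h : TW τ) {a b x : A} (ha : ‖a‖ ≤ 1) (hb : ‖b‖ ≤ 1) :
    n2 τ (a * x * b) ≤ n2 τ x := by
  calc n2 τ (a * x * b) ≤ n2 τ (a * x) * ‖b‖ := (n2_mul_le h b (a * x)).2
    _ ≤ (‖a‖ * n2 τ x) * ‖b‖ :=
        mul_le_mul_of_nonneg_right (n2_mul_le h a x).1 (norm_nonneg _)
    _ ≤ (1 * n2 τ x) * 1 := by
        apply mul_le_mul _ hb (norm_nonneg _) (by rw [one_mul]; exact n2_nonneg _ _)
        exact mul_le_mul_of_nonneg_right ha (n2_nonneg _ _)
    _ = n2 τ x := by ring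

lemma norm_prod_le {a b : A} (ha : ‖a‖ ≤ 1) (hb : ‖b‖ ≤ 1) : ‖a * b‖ ≤ 1 := by
  calc ‖a * b‖ ≤ ‖a‖ * ‖b‖ := norm_mul_le _ _
    _ ≤ 1 * 1 := mul_le_mul ha hb (norm_nonneg _) zero_le_one
    _ = 1 := one_mul 1

lemma norm_quarter : ‖(4⁻¹ : ℂ)‖ = 1 / 4 := by
  rw [norm_inv]
  norm_num

/-- an anticommuting pair of symmetries -/
structure Pr (s t : A) : Prop where
  ss : star s = s
  s1 : s * s = 1
  ts : star t = t
  t1 : t * t = 1
  anti : s * t = -(t * s)

lemma ph_norm {s t : A} (hp : Pr s t) (x : A) : ‖ph s t x‖ ≤ ‖x‖ := by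
  have hs := norm_sym_le hp.ss hp.s1
  have ht := norm_sym_le hp.ts hp.t1
  have h1 := norm_mul_mul_le (x := x) hs hs
  have h2 := norm_mul_mul_le (x := x) ht ht
  have h3 := norm_mul_mul_le (x := x) (norm_prod_le hs ht) (norm_prod_le ht hs)
  unfold ph
  rw [norm_smul, norm_quarter]
  have h4 := norm_add_le (x + s * x * s + t * x * t) ((s * t) * x * (t * s))
  have h5 := norm_add_le (x + s * x * s) (t * x * t)
  have h6 := norm_add_le x (s * x * s)
  linarith

lemma ph_n2 (h : TW τ) {s t : A} (hp : Pr s t) (x : A) : n2 τ (ph s t x) ≤ n2 τ x := by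
  have hs := norm_sym_le hp.ss hp.s1
  have ht := norm_sym_le hp.ts hp.t1
  have h1 := n2_mul_mul_le h (x := x) hs hs
  have h2 := n2_mul_mul_le h (x := x) ht ht
  have h3 := n2_mul_mul_le h (x := x) (norm_prod_le hs ht) (norm_prod_le ht hs)
  unfold ph
  rw [n2_smul, norm_quarter]
  have h4 := h.n2_add_le (x + s * x * s + t * x * t) ((s * t) * x * (t * s))
  have h5 := h.n2_add_le (x + s * x * s) (t * x * t)
  have h6 := h.n2_add_le x (s * x * s)
  linarith

lemma ph_EZ (hz : EZP τ) {s t : A} (hp : Pr s t) (x : A) : EZ τ (ph s t x) = EZ τ x := by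
  have h1 : EZ τ (s * x * s) = EZ τ x := by
    rw [mul_assoc, hz.cyc, mul_assoc, hp.s1, mul_one]
  have h2 : EZ τ (t * x * t) = EZ τ x := by
    rw [mul_assoc, hz.cyc, mul_assoc, hp.t1, mul_one]
  have h3 : EZ τ ((s * t) * x * (t * s)) = EZ τ x := by
    rw [mul_assoc, hz.cyc, mul_assoc]
    have : t * s * (s * t) = 1 := by
      rw [mul_assoc, ← mul_assoc s s t, hp.s1, one_mul, hp.t1]
    rw [this, mul_one]
  unfold ph
  rw [hz.smul, hz.add, hz.add, hz.add, h1, h2, h3]
  have e : EZ τ x + EZ τ x + EZ τ x + EZ τ x = (4 : ℂ) • EZ τ x := by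
    have : (4 : ℂ) = 1 + 1 + 1 + 1 := by norm_num
    rw [this, add_smul, add_smul, add_smul, one_smul]
  rw [e, smul_smul]
  norm_num

lemma ph_fix {s t : A} (hp : Pr s t) (x : A) (hs : s * x = x * s) (ht : t * x = x * t) :
    ph s t x = x := by
  have h1 : s * x * s = x := by rw [hs, mul_assoc, hp.s1, mul_one]
  have h2 : t * x * t = x := by rw [ht, mul_assoc, hp.t1, mul_one]
  have h3 : (s * t) * x * (t * s) = x := by
    have : (s * t) * x * (t * s) = s * (t * x * t) * s := by noncomm_ring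
    rw [this, h2, h1]
  unfold ph
  rw [h1, h2, h3]
  have e : x + x + x + x = (4 : ℂ) • x := by
    have : (4 : ℂ) = 1 + 1 + 1 + 1 := by norm_num
    rw [this, add_smul, add_smul, add_smul, one_smul]
  rw [e, smul_smul]
  norm_num

lemma ph_comm_s {s t : A} (hp : Pr s t) (x : A) : s * ph s t x = ph s t x * s := by
  unfold ph
  rw [mul_smul_comm, smul_mul_assoc]
  congr 1
  have e1 : s * (x + s * x * s + t * x * t + s * t * x * (t * s)) =
      s * x + (s * s) * x * s + s * t * x * t + (s * s) * t * x * t * s := by noncomm_ring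
  have e2 : (x + s * x * s + t * x * t + s * t * x * (t * s)) * s =
      x * s + s * x * (s * s) + t * x * t * s + s * t * x * t * (s * s) := by noncomm_ring
  rw [e1, e2, hp.s1]
  noncomm_ring

lemma ph_comm_t {s t : A} (hp : Pr s t) (x : A) : t * ph s t x = ph s t x * t := by
  unfold ph
  rw [mul_smul_comm, smul_mul_assoc]
  congr 1
  have ha : t * s = -(s * t) := by rw [hp.anti, neg_neg]
  have e1 : t * (x + s * x * s + t * x * t + s * t * x * (t * s)) =
      t * x + t * s * x * s + (t * t) * x * t + (t * s) * t * x * (t * s) := by noncomm_ring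
  have e2 : (x + s * x * s + t * x * t + s * t * x * (t * s)) * t =
      x * t + s * x * s * t + t * x * (t * t) + s * t * x * t * (s * t) := by noncomm_ring
  have e3 : (t * s) * t * x * (t * s) = s * x * s * t := by
    rw [ha]
    have : -(s * t) * t * x * -(s * t) = s * (t * t) * x * (s * t) := by noncomm_ring
    rw [this, hp.t1]
    noncomm_ring
  have e4 : s * t * x * t * (s * t) = t * s * x * s := by
    rw [hp.anti]
    have : -(t * s) * x * t * -(t * s) = t * s * x * (t * t) * s := by noncomm_ring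
    rw [this, hp.t1]
    noncomm_ring
  rw [e1, e2, e3, e4, hp.t1]
  noncomm_ring

lemma ph_comm_u {s t u : A} (x : A) (hs : u * s = s * u) (ht : u * t = t * u)
    (hx : u * x = x * u) : u * ph s t x = ph s t x * u := by
  have hc1 : Commute u s := hs
  have hc2 : Commute u t := ht
  have hc3 : Commute u x := hx
  have h1 : Commute u (x + s * x * s + t * x * t + (s * t) * x * (t * s)) :=
    ((hc3.add_right ((hc1.mul_right hc3).mul_right hc1)).add_right
      ((hc2.mul_right hc3).mul_right hc2)).add_right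
      (((hc1.mul_right hc2).mul_right hc3).mul_right (hc2.mul_right hc1))
  unfold ph
  rw [mul_smul_comm, smul_mul_assoc, h1.eq]

lemma pr_of {s t : ℕ → A} {K : ℕ} (hp : PauK s t (K + 1)) : Pr (s K) (t K) :=
  ⟨hp.ss K (Nat.lt_succ_self K), hp.s1 K (Nat.lt_succ_self K), hp.ts K (Nat.lt_succ_self K),
    hp.t1 K (Nat.lt_succ_self K), hp.anti K (Nat.lt_succ_self K)⟩

lemma pauK_mono {s t : ℕ → A} {K j : ℕ} (hj : j ≤ K) (hp : PauK s t K) : PauK s t j where
  ss i hi := hp.ss i (lt_of_lt_of_le hi hj)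
  s1 i hi := hp.s1 i (lt_of_lt_of_le hi hj)
  ts i hi := hp.ts i (lt_of_lt_of_le hi hj)
  t1 i hi := hp.t1 i (lt_of_lt_of_le hi hj)
  anti i hi := hp.anti i (lt_of_lt_of_le hi hj)
  css i hi k hk := hp.css i (lt_of_lt_of_le hi hj) k (lt_of_lt_of_le hk hj)
  ctt i hi k hk := hp.ctt i (lt_of_lt_of_le hi hj) k (lt_of_lt_of_le hk hj)
  cst i hi k hk := hp.cst i (lt_of_lt_of_le hi hj) k (lt_of_lt_of_le hk hj)

lemma av_add (s t : ℕ → A) (K : ℕ) (x y : A) :
    av s t K (x + y) = av s t K x + av s t K y := by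
  induction K with
  | zero => rfl
  | succ K ih => rw [av_succ, ih, ph_add, av_succ, av_succ]

lemma av_sub (s t : ℕ → A) (K : ℕ) (x y : A) :
    av s t K (x - y) = av s t K x - av s t K y := by
  induction K with
  | zero => rfl
  | succ K ih => rw [av_succ, ih, ph_sub, av_succ, av_succ]

lemma av_smul (s t : ℕ → A) (K : ℕ) (c : ℂ) (x : A) :
    av s t K (c • x) = c • av s t K x := by
  induction K with
  | zero => rfl
  | succ K ih => rw [av_succ, ih, ph_smul, av_succ]

lemma av_norm (s t : ℕ → A) (K : ℕ) (hp : PauK s t K) (x : A) : ‖av s t K x‖ ≤ ‖x‖ := by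
  induction K with
  | zero => exact le_rfl
  | succ K ih =>
    rw [av_succ]
    exact (ph_norm (pr_of hp) _).trans (ih (pauK_mono (Nat.le_succ K) hp))

lemma av_n2 (h : TW τ) (s t : ℕ → A) (K : ℕ) (hp : PauK s t K) (x : A) :
    n2 τ (av s t K x) ≤ n2 τ x := by
  induction K with
  | zero => exact le_rfl
  | succ K ih =>
    rw [av_succ]
    exact (ph_n2 h (pr_of hp) _).trans (ih (pauK_mono (Nat.le_succ K) hp))

lemma av_EZ (hz : EZP τ) (s t : ℕ → A) (K : ℕ) (hp : PauK s t K) (x : A) :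
    EZ τ (av s t K x) = EZ τ x := by
  induction K with
  | zero => rfl
  | succ K ih =>
    rw [av_succ, ph_EZ hz (pr_of hp), ih (pauK_mono (Nat.le_succ K) hp)]

lemma av_comm (s t : ℕ → A) (K : ℕ) (hp : PauK s t K) (x : A) :
    ∀ j < K, s j * av s t K x = av s t K x * s j ∧ t j * av s t K x = av s t K x * t j := by
  induction K with
  | zero =>
    intro j hj
    omega
  | succ K ih =>
    intro j hj
    rw [av_succ]
    rcases Nat.lt_succ_iff_lt_or_eq.1 hj with h1 | h1
    · obtain ⟨i1, i2⟩ := ih (pauK_mono (Nat.le_succ K) hp) j h1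
      have hK := Nat.lt_succ_self K
      constructor
      · exact ph_comm_u _ (hp.css j hj K hK) (hp.cst j hj K hK (by omega)) i1
      · exact ph_comm_u _ (hp.cst K hK j hj (by omega)).symm (hp.ctt j hj K hK) i2
    · rw [h1]
      exact ⟨ph_comm_s (pr_of hp) _, ph_comm_t (pr_of hp) _⟩

lemma av_fix (s t : ℕ → A) (K : ℕ) (hp : PauK s t K) (x : A)
    (hx : ∀ j < K, s j * x = x * s j ∧ t j * x = x * t j) : av s t K x = x := by
  induction K with
  | zero => rfl
  | succ K ih =>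
    rw [av_succ, ih (pauK_mono (Nat.le_succ K) hp) (fun j hj => hx j (by omega))]
    exact ph_fix (pr_of hp) x (hx K (Nat.lt_succ_self K)).1 (hx K (Nat.lt_succ_self K)).2

lemma av_anti (h : TW τ) (hz : EZP τ) (s t : ℕ → A) (K : ℕ) (hp : PauK s t K) (x : A) :
    ∀ j ≤ K, n2 τ (av s t K x - EZ τ x) ≤ n2 τ (av s t j x - EZ τ x) := by
  induction K with
  | zero =>
    intro j hj
    rw [Nat.le_zero.1 hj]
  | succ K ih =>
    intro j hj
    rcases Nat.le_succ_iff.1 hj with h1 | h1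
    · refine le_trans ?_ (ih (pauK_mono (Nat.le_succ K) hp) j h1)
      have e : av s t (K + 1) x - EZ τ x = ph (s K) (t K) (av s t K x - EZ τ x) := by
        rw [av_succ, ph_sub, ph_fix (pr_of hp) (EZ τ x) (hz.comm x _).symm (hz.comm x _).symm]
      rw [e]
      exact ph_n2 h (pr_of hp) _
    · rw [h1]

/-- AVP, relative to the properties of the centre valued trace -/
theorem av_props_of (h : TW τ) (hz : EZP τ) (s t : ℕ → A) (K : ℕ) (hp : PauK s t K) :
    (∀ x y, av s t K (x + y) = av s t K x + av s t K y) ∧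
    (∀ x y, av s t K (x - y) = av s t K x - av s t K y) ∧
    (∀ (c : ℂ) x, av s t K (c • x) = c • av s t K x) ∧
    (∀ x, ‖av s t K x‖ ≤ ‖x‖) ∧
    (∀ x, n2 τ (av s t K x) ≤ n2 τ x) ∧
    (∀ x, EZ τ (av s t K x) = EZ τ x) ∧
    (∀ x, (∀ y, x * y = y * x) → av s t K x = x) ∧
    (∀ x, ∀ j < K, s j * av s t K x = av s t K x * s j ∧ t j * av s t K x = av s t K x * t j) ∧
    (∀ x, (∀ j < K, s j * x = x * s j ∧ t j * x = x * t j) → av s t K x = x) ∧
    (∀ x, ∀ j ≤ K, n2 τ (av s t K x - EZ τ x) ≤ n2 τ (av s t j x - EZ τ x)) :=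
  ⟨av_add s t K, av_sub s t K, av_smul s t K, av_norm s t K hp, av_n2 h s t K hp,
    av_EZ hz s t K hp,
    fun x hx => av_fix s t K hp x fun j _ => ⟨(hx (s j)).symm, (hx (t j)).symm⟩,
    fun x => av_comm s t K hp x, fun x => av_fix s t K hp x, fun x => av_anti h hz s t K hp x⟩

end Pool.Agent.H270G.T_AVP
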